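import Mathlib
import Pool.Agent.H12.Cog2

namespace Pool.Agent.Results.MP_8eb3db_al.Counter

open PowerSeries

/-- the cogrowth series: the coefficient of `z^n` is the number of elements of `H` whose
reduced word has length `n` -/
noncomputable def cogrowth {m : ℕ} (H : Subgroup (FreeGroup (Fin m))) : ℚ⟦X⟧ :=
  mk fun n => ({h | h ∈ H ∧ h.norm = n}.ncard : ℚ)

theorem result : ∃ (m : ℕ) (H : Subgroup (FreeGroup (Fin m))), 1 ≤ m ∧ ¬ H.FG ∧
    ∃ P Q : Polynomial ℚ, Q ≠ 0 ∧ (Q : ℚ⟦X⟧) * cogrowth H = (P : ℚ⟦X⟧) := by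
  obtain ⟨h1, F, h2, h3⟩ := Pool.Agent.H12.Cog2.final
  refine ⟨_, _, by omega, h1, 1 - 100 * Polynomial.X,
    1 - 100 * Polynomial.X - 200 * Polynomial.X ^ 10, ?_, ?_⟩
  · intro h
    have := congrArg (Polynomial.eval 0) h
    simp at this
  · have e : cogrowth (Pool.Agent.H12.Cog1.sub (Pool.Agent.H12.Cog1.dd_inv 2000000
        Pool.Agent.H12.Cog2.B Pool.Agent.H12.Cog2.K (2000000 + (2000000 + 2000000 + 2000000)))
        (.node [])) = PowerSeries.map (Int.castRingHom ℚ) F := by
      ext n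
      rw [cogrowth, coeff_mk, coeff_map, h3]
      simp
    have := congrArg (PowerSeries.map (Int.castRingHom ℚ)) h2
    rw [e, ← Polynomial.coeToPowerSeries.ringHom_apply, ← Polynomial.coeToPowerSeries.ringHom_apply]
    simp only [map_sub, map_mul, map_one, map_ofNat, map_pow, map_X,
      Polynomial.coeToPowerSeries.ringHom_apply, Polynomial.coe_X] at this ⊢
    exact this

end Pool.Agent.Results.MP_8eb3db_al.Counter
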